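import Pool.Agent.W2helper74.SOS.Stm2

/-! # SOS last case: piece K8 (NF) -/

open MvPolynomial

namespace Pool.Agent.W2helper74.SOS

/-- unitary matrix with prescribed last column -/
lemma nf_unitary (ζ : Fin 3 → ℂ) (hζ : ∑ k, ζ k * star (ζ k) = 1) :
    ∃ U : Matrix (Fin 3) (Fin 3) ℂ, U.conjTranspose * U = 1 ∧ U.mulVec ![0, 0, 1] = ζ := by
  classical
  let v : Fin 3 → EuclideanSpace ℂ (Fin 3) := fun _ => WithLp.toLp 2 ζ
  have hn : inner ℂ (WithLp.toLp 2 ζ : EuclideanSpace ℂ (Fin 3)) (WithLp.toLp 2 ζ) = (1 : ℂ) := by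
    rw [← hζ]
    simp only [PiLp.inner_apply]
    refine Finset.sum_congr rfl fun k _ => ?_
    simp [Complex.mul_conj, Complex.normSq_eq_norm_sq]
  have hv : Orthonormal ℂ (({2} : Set (Fin 3)).domRestrict v) := by
    rw [orthonormal_iff_ite]
    rintro ⟨i, hi⟩ ⟨j, hj⟩
    rw [Set.mem_singleton_iff] at hi hj
    subst hi; subst hj
    simp only [if_true, v]
    exact hn
  obtain ⟨b, hb⟩ := hv.exists_orthonormalBasis_extension_of_card_eq
    (by simp : Module.finrank ℂ (EuclideanSpace ℂ (Fin 3)) = Fintype.card (Fin 3))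
  have hb2 : b 2 = WithLp.toLp 2 ζ := hb 2 rfl
  refine ⟨Matrix.of fun i j => b j i, ?_, ?_⟩
  · ext i j
    have h := orthonormal_iff_ite.1 b.orthonormal i j
    rw [PiLp.inner_apply] at h
    rw [Matrix.mul_apply, Matrix.one_apply, ← h]
    refine Finset.sum_congr rfl fun k _ => ?_
    simp [Matrix.conjTranspose_apply, mul_comm]
  · ext i
    simp [Matrix.mulVec, dotProduct, Fin.sum_univ_three, hb2]

/-- vanishing coefficients from vanishing away from zero -/
lemma nf_coeffs (a : Fin 7 → ℂ) (h : ∀ τ : ℂ, τ ≠ 0 → ∑ i : Fin 7, a i * τ ^ (i : ℕ) = 0) :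
    ∀ i, a i = 0 := by
  classical
  let p : Polynomial ℂ := ∑ i : Fin 7, Polynomial.C (a i) * Polynomial.X ^ (i : ℕ)
  have hp : p = 0 := by
    refine Polynomial.eq_zero_of_infinite_isRoot p ?_
    refine Set.Infinite.mono (s := {τ : ℂ | τ ≠ 0}) ?_ ?_
    · intro τ hτ
      simp only [Set.mem_ofPred_eq, Polynomial.IsRoot, p, Polynomial.eval_finsetSum,
        Polynomial.eval_mul, Polynomial.eval_C, Polynomial.eval_pow, Polynomial.eval_X]
      exact h τ hτ
    · have : {τ : ℂ | τ ≠ 0} = ({0} : Set ℂ)ᶜ := by ext; simp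
      rw [this]
      exact (Set.finite_singleton (0 : ℂ)).infinite_compl
  intro i
  have h2 : p.coeff (i : ℕ) = a i := by
    simp only [p, Polynomial.finsetSum_coeff, Polynomial.coeff_C_mul, Polynomial.coeff_X_pow]
    rw [Finset.sum_eq_single i]
    · simp
    · intro j _ hj
      rw [if_neg (fun h => hj (Fin.ext h.symm)), mul_zero]
    · intro h; exact absurd (Finset.mem_univ _) h
  rw [← h2, hp, Polynomial.coeff_zero]

/-- expansion of a ternary cubic form -/
lemma nf_expand (p : Pol 3) (hp : p.IsHomogeneous 3) :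
    ∃ (c : ℂ) (l : Fin 2 → ℂ) (q : Fin 3 → ℂ) (t : Fin 4 → ℂ), ∀ x y z,
      eval ![x, y, z] p = z ^ 3 * c + z ^ 2 * q1 l x y + z * q2 q x y + q3 t x y := by
  classical
  have key : ∀ s : Finset (Fin 3 →₀ ℕ), (∀ d ∈ s, d 0 + d 1 + d 2 = 3) →
      ∃ (c : ℂ) (l : Fin 2 → ℂ) (q : Fin 3 → ℂ) (t : Fin 4 → ℂ), ∀ x y z,
      eval ![x, y, z] (∑ d ∈ s, monomial d (coeff d p)) =
        z ^ 3 * c + z ^ 2 * q1 l x y + z * q2 q x y + q3 t x y := by
    intro s
    induction s using Finset.induction_on with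
    | empty =>
      intro _
      refine ⟨0, 0, 0, 0, fun x y z => ?_⟩
      simp [q1, q2, q3]
    | insert d s hd ih =>
      intro hs
      obtain ⟨c, l, q, t, h⟩ := ih fun d' hd' => hs d' (Finset.mem_insert_of_mem hd')
      have h3 := hs d (Finset.mem_insert_self _ _)
      obtain ⟨c', l', q', t', h'⟩ : ∃ (c : ℂ) (l : Fin 2 → ℂ) (q : Fin 3 → ℂ) (t : Fin 4 → ℂ),
          ∀ x y z, eval ![x, y, z] (monomial d (coeff d p)) =
            z ^ 3 * c + z ^ 2 * q1 l x y + z * q2 q x y + q3 t x y := by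
        generalize coeff d p = a
        have he : ∀ x y z, eval ![x, y, z] (monomial d a) =
            a * (x ^ d 0 * y ^ d 1 * z ^ d 2) := by
          intro x y z
          rw [eval_monomial, Finsupp.prod_fintype _ _ (fun i => pow_zero _), Fin.prod_univ_three]
          simp
        simp only [he, q1, q2, q3]
        generalize d 0 = d0 at h3
        generalize d 1 = d1 at h3
        generalize d 2 = d2 at h3
        have h0 : d0 ≤ 3 := by omega
        have h1 : d1 ≤ 3 := by omega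
        obtain rfl : d2 = 3 - d0 - d1 := by omega
        interval_cases d0 <;> interval_cases d1 <;> try omega
        · exact ⟨a, 0, 0, 0, fun x y z => by simp; ring⟩
        · exact ⟨0, ![0, a], 0, 0, fun x y z => by simp; ring⟩
        · exact ⟨0, 0, ![0, 0, a], 0, fun x y z => by simp; ring⟩
        · exact ⟨0, 0, 0, ![0, 0, 0, a], fun x y z => by simp⟩
        · exact ⟨0, ![a, 0], 0, 0, fun x y z => by simp; ring⟩
        · exact ⟨0, 0, ![0, a, 0], 0, fun x y z => by simp; ring⟩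
        · exact ⟨0, 0, 0, ![0, 0, a, 0], fun x y z => by simp; ring⟩
        · exact ⟨0, 0, ![a, 0, 0], 0, fun x y z => by simp; ring⟩
        · exact ⟨0, 0, 0, ![0, a, 0, 0], fun x y z => by simp; ring⟩
        · exact ⟨0, 0, 0, ![a, 0, 0, 0], fun x y z => by simp⟩
      refine ⟨c' + c, l' + l, q' + q, t' + t, fun x y z => ?_⟩
      rw [Finset.sum_insert hd, map_add, h, h']
      simp only [q1, q2, q3, Pi.add_apply]
      ring
  obtain ⟨c, l, q, t, h⟩ := key p.support (fun d hd => by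
    have := hp (mem_support_iff.1 hd)
    rw [Finsupp.weight_apply, Finsupp.sum_fintype _ _ (by simp), Fin.sum_univ_three] at this
    simpa using this)
  refine ⟨c, l, q, t, fun x y z => ?_⟩
  rw [← h, support_sum_monomial_coeff]

/-- `eval` of `res` -/
lemma nf_eval_res {n j : ℕ} (T : Matrix (Fin n) (Fin j) ℂ) (p : Pol n) (x : Fin j → ℂ) :
    eval x (res T p) = eval (T.mulVec x) p := by
  have : (eval x : Pol j →+* ℂ).comp (res T).toRingHom = eval (T.mulVec x) := by
    apply MvPolynomial.ringHom_ext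
    · intro c; simp [res]
    · intro k
      simp [res, lf, Matrix.mulVec, dotProduct]
  exact congrArg (fun f => f p) this

lemma nf_res_hom {n j N : ℕ} (T : Matrix (Fin n) (Fin j) ℂ) (p : Pol n) (hp : p.IsHomogeneous N) :
    (res T p).IsHomogeneous N := by
  have h := hp.aeval (fun k => lf (T k)) (n := 1) (fun k => by
    refine MvPolynomial.IsHomogeneous.sum _ _ 1 fun i _ => ?_
    have := (isHomogeneous_C (Fin j) (T k i)).mul (isHomogeneous_X ℂ i)
    simpa using this)
  simpa [res] using h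

/-- unitary matrices preserve the hermitian product -/
lemma nf_inner (U : Matrix (Fin 3) (Fin 3) ℂ) (hU : U.conjTranspose * U = 1) (Z W : Fin 3 → ℂ) :
    ∑ k, U.mulVec Z k * star (U.mulVec W k) = ∑ k, Z k * star (W k) := by
  have h1 : ∑ k, U.mulVec Z k * star (U.mulVec W k) = star (U.mulVec W) ⬝ᵥ (U.mulVec Z) := by
    simp [dotProduct, mul_comm]
  rw [h1, Matrix.star_mulVec, ← Matrix.dotProduct_mulVec, Matrix.mulVec_mulVec, hU, Matrix.one_mulVec]
  simp [dotProduct, mul_comm]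

theorem nf_proof : NF := by
  intro r d ζ hζ
  obtain ⟨U, hU, hUζ⟩ := nf_unitary ζ hζ
  choose c l q t h using fun j => nf_expand (res U (d.p j)) (nf_res_hom U _ (d.p_hom j))
  refine ⟨U, c, l, q, t, hU, hUζ, ?_, fun j x y z => by rw [← nf_eval_res, h]⟩
  have main : ∀ x y X Y τ : ℂ, τ ≠ 0 →
      ∑ j, (τ ^ 3 * c j + τ ^ 2 * q1 (l j) x y + τ * q2 (q j) x y + q3 (t j) x y) *
        (τ ^ 3 * q3 (cj (t j)) X Y - (x * X + y * Y) * τ ^ 2 * q2 (cj (q j)) X Y +
          (x * X + y * Y) ^ 2 * τ * q1 (cj (l j)) X Y - (x * X + y * Y) ^ 3 * star (c j)) = 0 := by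
    intro x y X Y τ hτ
    set s := x * X + y * Y with hs
    have h1 := d.main (U.mulVec ![x, y, τ]) (U.mulVec ![star X, star Y, star (-s / τ)])
    rw [nf_inner U hU] at h1
    have h2 : ∑ k : Fin 3, (![x, y, τ] : Fin 3 → ℂ) k *
        star ((![star X, star Y, star (-s / τ)] : Fin 3 → ℂ) k) = 0 := by
      rw [Fin.sum_univ_three]
      simp only [Matrix.cons_val_zero, Matrix.cons_val_one, Matrix.cons_val, star_star]
      rw [hs]; field_simp; ring
    rw [h2, zero_mul] at h1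
    have h3 : ∀ j, eval (U.mulVec ![x, y, τ]) (d.p j) =
        τ ^ 3 * c j + τ ^ 2 * q1 (l j) x y + τ * q2 (q j) x y + q3 (t j) x y := fun j => by
      rw [← nf_eval_res, h]
    have h4 : ∀ j, τ ^ 3 * star (eval (U.mulVec ![star X, star Y, star (-s / τ)]) (d.p j)) =
        (τ ^ 3 * q3 (cj (t j)) X Y - s * τ ^ 2 * q2 (cj (q j)) X Y +
          s ^ 2 * τ * q1 (cj (l j)) X Y - s ^ 3 * star (c j)) := fun j => by
      rw [← nf_eval_res, h]
      simp only [q1, q2, q3, cj, star_add, star_mul', star_pow, star_star]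
      field_simp
      ring
    rw [← mul_zero (τ ^ 3), ← h1, Finset.mul_sum]
    refine Finset.sum_congr rfl fun j _ => ?_
    rw [← h3, ← h4]; ring
  have main2 : ∀ x y X Y : ℂ,
      (∑ j, c j * q3 (cj (t j)) X Y = 0) ∧
      (∑ j, q1 (l j) x y * q3 (cj (t j)) X Y -
        (x * X + y * Y) * ∑ j, c j * q2 (cj (q j)) X Y = 0) ∧
      (∑ j, q2 (q j) x y * q3 (cj (t j)) X Y -
        (x * X + y * Y) * ∑ j, q1 (l j) x y * q2 (cj (q j)) X Y +
        (x * X + y * Y) ^ 2 * ∑ j, c j * q1 (cj (l j)) X Y = 0) ∧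
      (∑ j, q3 (t j) x y * q3 (cj (t j)) X Y -
        (x * X + y * Y) * ∑ j, q2 (q j) x y * q2 (cj (q j)) X Y +
        (x * X + y * Y) ^ 2 * ∑ j, q1 (l j) x y * q1 (cj (l j)) X Y -
        (x * X + y * Y) ^ 3 * ∑ j, c j * star (c j) = 0) := by
    intro x y X Y
    set s := x * X + y * Y with hs
    have hc := nf_coeffs ![
      - s ^ 3 * ∑ j, q3 (t j) x y * star (c j),
      s ^ 2 * ∑ j, q3 (t j) x y * q1 (cj (l j)) X Y - s ^ 3 * ∑ j, q2 (q j) x y * star (c j),
      - s * ∑ j, q3 (t j) x y * q2 (cj (q j)) X Y + s ^ 2 * ∑ j, q2 (q j) x y * q1 (cj (l j)) X Y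
        - s ^ 3 * ∑ j, q1 (l j) x y * star (c j),
      ∑ j, q3 (t j) x y * q3 (cj (t j)) X Y -
        s * ∑ j, q2 (q j) x y * q2 (cj (q j)) X Y +
        s ^ 2 * ∑ j, q1 (l j) x y * q1 (cj (l j)) X Y -
        s ^ 3 * ∑ j, c j * star (c j),
      ∑ j, q2 (q j) x y * q3 (cj (t j)) X Y -
        s * ∑ j, q1 (l j) x y * q2 (cj (q j)) X Y +
        s ^ 2 * ∑ j, c j * q1 (cj (l j)) X Y,
      ∑ j, q1 (l j) x y * q3 (cj (t j)) X Y -
        s * ∑ j, c j * q2 (cj (q j)) X Y,
      ∑ j, c j * q3 (cj (t j)) X Y] (by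
        intro τ hτ
        have hm := main x y X Y τ hτ
        rw [← hs] at hm
        rw [← hm]
        simp only [Fin.sum_univ_succ, Finset.univ_unique, Finset.sum_singleton, Fin.default_eq_zero]
        simp
        ring)
    refine ⟨hc 6, hc 5, hc 4, hc 3⟩
  exact ⟨fun X Y => (main2 0 0 X Y).1, fun x y X Y => sub_eq_zero.1 (main2 x y X Y).2.1,
    fun x y X Y => by linear_combination (main2 x y X Y).2.2.1,
    fun x y X Y => by linear_combination (main2 x y X Y).2.2.2⟩

end Pool.Agent.W2helper74.SOS
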